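import Pool.Agent.H3.PS.Stm

/-!
# Crew PS, part DET
-/

set_option autoImplicit false

namespace Pool.Agent.H3.PS

open MeasureTheory ProbabilityTheory Filter Topology
open Pool.Agent.Helper581.Sand Pool.Agent.W5h98.Pol

theorem mv_add_one {d : ℕ} (x : V d) (i : Fin d) : mv x i 1 = x + Pi.single i 1 := by
  funext j
  unfold mv
  by_cases h : j = i
  · subst h; simp
  · simp [h]

theorem mv_sub_one {d : ℕ} (x : V d) (i : Fin d) : mv x i (-1) = x - Pi.single i 1 := by
  funext j
  unfold mv
  by_cases h : j = i
  · subst h; simp [sub_eq_add_neg]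
  · simp [h]

theorem topples_od {d : ℕ} {a : V d → ℤ} {x : V d} (h : Topples a x) :
    ∃ T : ℕ, ∀ T', T ≤ T' → 1 ≤ od a T' x := by
  obtain ⟨t, ht⟩ := h
  refine ⟨t + 1, fun T' hT' => ?_⟩
  unfold od
  have h1 : tp (run a t) x = 1 := by
    unfold tp
    rw [if_pos ht]
  calc (1 : ℤ) = tp (run a t) x := h1.symm
    _ ≤ ∑ s ∈ Finset.range T', tp (run a s) x :=
      Finset.single_le_sum (f := fun s => tp (run a s) x) (fun s _ => tp_nonneg _ _)
        (Finset.mem_range.2 (by omega))

theorem not_topples_od {d : ℕ} {a : V d → ℤ} {x : V d} (h : ¬ Topples a x) (T : ℕ) :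
    od a T x = 0 := by
  unfold od
  apply Finset.sum_eq_zero
  intro s _
  unfold tp
  rw [if_neg]
  intro h1
  exact h ⟨s, h1⟩

theorem stt_one {g h n : ℕ} : stt g h n = 1 ↔ n < g := by
  unfold stt
  split_ifs with h1 h2
  · simp [h1]
  · simp [h1]
  · simp [h1]

theorem lap_kk {d : ℕ} (g h : ℕ) (ω : V d → ℕ) (y : V d) :
    lap (kk g ω) y = 2 * (nc (fun y => stt g h (ω y)) y : ℤ) - 2 * d * kk g ω y := by
  unfold lap nc
  congr 1
  push_cast
  rw [Finset.mul_sum]
  refine Finset.sum_congr rfl fun i _ => ?_
  rw [← mv_add_one, ← mv_sub_one]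
  simp only [stt_one]
  unfold kk
  split_ifs <;> norm_num

theorem DET : S_DET := by
  intro d hd g h s κ hgk hg hs hh ω
  obtain ⟨a', ha'⟩ : ∃ a' : V d → ℤ, a' = fun y => cf ω y - lap (kk g ω) y := ⟨_, rfl⟩
  rw [← ha']
  have hval : ∀ y, ¬ bad s (fun y => stt g h (ω y)) y →
      a' y ≥ (ω y : ℤ) - 2 * s + 2 * d * kk g ω y := by
    intro y hy
    rw [ha']
    simp only
    rw [lap_kk g h ω y]
    unfold bad at hy
    push Not at hy
    have h1 : ((nc (fun y => stt g h (ω y)) y : ℕ) : ℤ) ≤ s := by exact_mod_cast hy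
    unfold cf
    linarith
  have hbase : ∀ y, ¬ bad s (fun y => stt g h (ω y)) y → stt g h (ω y) ≠ 2 → Topples a' y := by
    intro y hy hy2
    refine ⟨0, ?_⟩
    rw [run_zero]
    have h1 := hval y hy
    unfold stt at hy2
    have hsd : (s : ℤ) ≤ d := by exact_mod_cast hs
    split_ifs at hy2 with h2 h3
    · have h4 : kk g ω y = 2 := by unfold kk; rw [if_pos h2]
      rw [h4] at h1
      have : (0 : ℤ) ≤ ω y := Int.natCast_nonneg _
      linarith
    · have h4 : kk g ω y = 0 := by unfold kk; rw [if_neg h2]
      rw [h4] at h1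
      have h5 : (2 * (d : ℤ) + 2 * s) ≤ ω y := by exact_mod_cast hh.trans h3
      linarith
    · exact absurd rfl hy2
  intro t
  induction t with
  | zero =>
    intro x hx
    exact hbase x hx.1 hx.2
  | succ t ih =>
    intro x hx
    rcases hx with hx | ⟨hb, A, hA, hx⟩
    · exact ih x hx
    · by_cases h2 : stt g h (ω x) ≠ 2
      · exact hbase x hb h2
      · by_contra hnt
        push Not at h2
        have hωg : g ≤ ω x := by
          by_contra hlt
          push Not at hlt
          rw [stt_one.2 hlt] at h2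
          exact absurd h2 (by decide)
        have h4 : kk g ω x = 0 := by unfold kk; rw [if_neg (by omega)]
        have h1 := hval x hb
        rw [h4] at h1
        have hT : ∀ i : Fin d, ∃ T : ℕ, ∀ T', T ≤ T' → i ∈ A →
            1 ≤ od a' T' (x + Pi.single i 1) + od a' T' (x - Pi.single i 1) := by
          intro i
          by_cases hi : i ∈ A
          · rcases hx i hi with h5 | h5
            · obtain ⟨T, hT⟩ := topples_od (ih _ h5)
              refine ⟨T, fun T' hT' _ => ?_⟩
              have h6 := hT T' hT'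
              rw [mv_add_one] at h6
              have h7 := od_nonneg a' T' (x - Pi.single i 1)
              linarith
            · obtain ⟨T, hT⟩ := topples_od (ih _ h5)
              refine ⟨T, fun T' hT' _ => ?_⟩
              have h6 := hT T' hT'
              rw [mv_sub_one] at h6
              have h7 := od_nonneg a' T' (x + Pi.single i 1)
              linarith
          · exact ⟨0, fun _ _ h => absurd h hi⟩
        choose T hT using hT
        obtain ⟨M, hM⟩ : ∃ M : ℕ, ∀ i, T i ≤ M :=
          ⟨Finset.univ.sup T, fun i => Finset.le_sup (Finset.mem_univ i)⟩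
        have h5 := run_eq a' M x
        have h6 : lap (od a' M) x ≥ A.card := by
          unfold lap
          rw [not_topples_od hnt M]
          have h7 : (A.card : ℤ) = ∑ i ∈ A, (1 : ℤ) := by simp
          have h8 : ∑ i ∈ A, (1 : ℤ) ≤
              ∑ i ∈ A, (od a' M (x + Pi.single i 1) + od a' M (x - Pi.single i 1)) :=
            Finset.sum_le_sum fun i hi => hT i M (hM i) hi
          have h9 : ∑ i ∈ A, (od a' M (x + Pi.single i 1) + od a' M (x - Pi.single i 1)) ≤
              ∑ i, (od a' M (x + Pi.single i 1) + od a' M (x - Pi.single i 1)) :=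
            Finset.sum_le_sum_of_subset_of_nonneg (Finset.subset_univ _) fun i _ _ =>
              add_nonneg (od_nonneg _ _ _) (od_nonneg _ _ _)
          rw [h7]
          linarith
        apply hnt
        refine ⟨M, ?_⟩
        rw [h5]
        have h10 : (2 * (d : ℤ) + 2 * s) ≤ g + κ := by exact_mod_cast hgk
        have h11 : (κ : ℤ) ≤ A.card := by exact_mod_cast hA
        have h12 : (g : ℤ) ≤ ω x := by exact_mod_cast hωg
        linarith

end Pool.Agent.H3.PS
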